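import Pool.Agent.W23.KI.Defs
import Pool.Agent.W214.PL.SMO

/-! KI-SMOI (owner helper23): smooth parts of linear forms at sifted integers (Rankin's trick).
Adapted from `Pool.Agent.W216.KS.SMOK` (helper216) and `Pool.Agent.W214.PL.SMO` (helper214). -/

set_option autoImplicit false

namespace Pool.Agent.W503.KI

open Finset
open Pool.Agent.H442R2
open Pool.Agent.H442R2.KF
open Pool.Agent.W23.DC
open Pool.Agent.W23.SG
open Pool.Agent.W23.PL
open Pool.Agent.W23.KT
open Pool.Agent.W23.KS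
open Pool.Agent.W23.KI
open Pool.Agent.W214.PL (pw hf hf_sum hf_nonneg Fq strip smooth_sum eventually_N)
open Pool.Agent.Helper256.KM (mertens_log)

theorem SMOI (hUBSI : St_UBSI) (hVLBK : St_VLBK) : St_SMOI := by
  classical
  intro k M B hk hB ε₁ hε hε1
  obtain ⟨CU, NU, hCU, hU⟩ := hUBSI k M B hk hB ε₁ hε hε1
  obtain ⟨c₂, hc₂, hV⟩ := hVLBK k hk
  obtain ⟨NV, hV⟩ := hV M B hB ε₁ hε hε1
  obtain ⟨CM, hCM⟩ := mertens_log
  refine ⟨CU * Real.exp (16 * (1 + |CM|)), by positivity, fun u hu => ?_⟩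
  obtain ⟨N₀, hN₀⟩ := eventually_N B u NU NV hc₂
  refine ⟨N₀, fun N hN S hS F hF => ?_⟩
  obtain ⟨h1, h2, h3, h4, h5⟩ := hN₀ N hN
  have hVN := (hV N h2).1
  have hFo := hS.sys.fo F hF
  set L := Real.log (N : ℝ) with hL
  set V := Vk k (P1 N B ε₁) with hVdef
  set y := L ^ B with hy
  set Z := (N : ℝ) ^ (1 / 20 : ℝ) with hZ
  have he1 : (2 : ℝ) < Real.exp 1 := by
    have := Real.exp_one_gt_d9
    linarith
  have hL2 : 2 < L := lt_of_lt_of_le he1 h3
  have hL0 : 0 < L := by linarith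
  have hlogL : 1 ≤ Real.log L := by
    rw [Real.le_log_iff_exp_le hL0]
    exact h3
  have hy1 : 1 < y := one_lt_pow₀ (by linarith) (by omega)
  have hlogy : 2 ≤ Real.log y := by
    rw [hy, Real.log_pow]
    have : (2 : ℝ) ≤ B := by exact_mod_cast hB
    nlinarith
  set α := 1 / Real.log y with hα
  have hα0 : 0 ≤ α := by positivity
  have hαy : α * Real.log y = 1 := by
    rw [hα]
    field_simp
  have hN0 : (0 : ℝ) < N := by
    rcases Nat.eq_zero_or_pos N with h0 | h0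
    · exfalso
      rw [h0] at hL
      simp at hL
      linarith
    · exact_mod_cast h0
  have hVlow : c₂ / L ^ k ≤ V := by
    refine le_trans ?_ hVN
    rw [div_eq_mul_inv, ← inv_pow]
    apply mul_le_mul_of_nonneg_left _ hc₂.le
    apply pow_le_pow_left₀ (by positivity)
    rw [inv_eq_one_div, div_le_div_iff₀ hL0 (by positivity)]
    have hB1 : (2 : ℝ) ≤ B := by exact_mod_cast hB
    have : ε₁ ≤ B * Real.log L := by nlinarith
    nlinarith
  have hV0 : 0 < V := lt_of_lt_of_le (by positivity) hVlow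
  -- the set
  set A := (Icc 1 N).filter (fun p : ℕ => lf F p ≠ 0 ∧
      xx (PK N B ε₁ S) (Fp S p) = 1 ∧
      ∃ m : ℕ, m ∣ (lf F p).natAbs ∧ (∀ l : ℕ, l.Prime → l ∣ m → (l : ℝ) < y) ∧
      L ^ (B * u) < m) with hA
  set T := (Icc 1 ⌊Z⌋₊).filter (fun d : ℕ => (∀ l : ℕ, l.Prime → l ∣ d → (l : ℝ) < y) ∧
    Nat.Coprime F.2 d) with hT
  have hZy : y ^ u * y ≤ Z := by
    have : y ^ u * y = L ^ (B * u) * L ^ B := by
      rw [hy, ← pow_mul]
    rw [this]
    exact h4
  have hpt : ∀ p ∈ A,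
      (1 : ℝ) ≤ Real.exp (-(u : ℝ)) * ∑ d ∈ T, if (d : ℤ) ∣ lf F p then hf α d else 0 := by
    intro p hp
    rw [hA, Finset.mem_filter] at hp
    obtain ⟨hpN, hpa, hxx, m, hm, hms, hmu⟩ := hp
    rw [pow_mul] at hmu
    obtain ⟨m', hm'm, hwm', hm'Z⟩ := strip (one_le_pow₀ hy1.le) (by linarith) hZy m hms hmu
    have hm's : ∀ l : ℕ, l.Prime → l ∣ m' → (l : ℝ) < y := fun l hl h => hms l hl (h.trans hm'm)
    have hm'a : (m' : ℤ) ∣ lf F p := by
      exact Int.natCast_dvd.2 (hm'm.trans hm)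
    have hm'0 : m' ≠ 0 := by
      rintro rfl
      have : (0 : ℝ) < y ^ u := by positivity
      push_cast at hwm'
      linarith
    have hm'pos : (0 : ℝ) < m' := by exact_mod_cast Nat.pos_of_ne_zero hm'0
    -- a prime dividing `m'` and `b`
    have hnb : ∀ l : ℕ, l.Prime → (l : ℤ) ∣ F.1 → ¬ l ∣ F.2 := by
      intro l hl g1 g2
      have : l ∣ Int.gcd F.1 F.2 := by
        rw [Int.dvd_gcd_iff]
        exact ⟨g1, Int.natCast_dvd_natCast.2 g2⟩
      rw [hFo.cop] at this
      exact hl.one_lt.ne' (Nat.dvd_one.1 this)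
    have hcop2 : Nat.Coprime F.2 m' := by
      by_contra hne
      obtain ⟨l, hl, g1, g2⟩ := Nat.Prime.not_coprime_iff_dvd.1 hne
      have l2 : (l : ℤ) ∣ lf F p := (Int.natCast_dvd_natCast.2 g2).trans hm'a
      have l3 : (l : ℤ) ∣ (F.2 : ℤ) * p := (Int.natCast_dvd_natCast.2 g1).mul_right _
      have l4 : (l : ℤ) ∣ F.1 := by
        have := dvd_sub l2 l3
        unfold lf at this
        simpa using this
      exact hnb l hl l4 g1
    have hdiv : (m'.divisors) ⊆ T := by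
      intro d hd
      have hdm := Nat.dvd_of_mem_divisors hd
      rw [hT, Finset.mem_filter, Finset.mem_Icc]
      refine ⟨⟨Nat.pos_of_mem_divisors hd, Nat.le_floor ?_⟩, fun l hl h => hm's l hl (h.trans hdm),
        hcop2.coprime_dvd_right hdm⟩
      have : (d : ℝ) ≤ m' := by exact_mod_cast Nat.le_of_dvd (Nat.pos_of_ne_zero hm'0) hdm
      linarith
    have hsum : (m' : ℝ) ^ α ≤ ∑ d ∈ T, if (d : ℤ) ∣ lf F p then hf α d else 0 := by
      rw [← hf_sum α hm'0]
      calc ∑ d ∈ m'.divisors, hf α d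
          = ∑ d ∈ m'.divisors, if (d : ℤ) ∣ lf F p then hf α d else 0 := by
            refine Finset.sum_congr rfl fun d hd => ?_
            rw [if_pos]
            exact (Int.natCast_dvd_natCast.2 (Nat.dvd_of_mem_divisors hd)).trans hm'a
        _ ≤ _ := by
            refine Finset.sum_le_sum_of_subset_of_nonneg hdiv fun d _ _ => ?_
            split_ifs
            · exact hf_nonneg hα0 d
            · exact le_rfl
    have hbig : Real.exp u ≤ (m' : ℝ) ^ α := by
      rw [Real.rpow_def_of_pos hm'pos]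
      apply Real.exp_le_exp.2
      have : Real.log (y ^ u) ≤ Real.log m' := Real.log_le_log (by positivity) hwm'.le
      rw [Real.log_pow] at this
      calc (u : ℝ) = u * Real.log y * α := by rw [mul_assoc, mul_comm (Real.log y), hαy, mul_one]
        _ ≤ Real.log m' * α := by gcongr
    calc (1 : ℝ) = Real.exp (-(u : ℝ)) * Real.exp u := by rw [← Real.exp_add]; simp
      _ ≤ Real.exp (-(u : ℝ)) * ∑ d ∈ T, if (d : ℤ) ∣ lf F p then hf α d else 0 := by
          gcongr
          exact hbig.trans hsum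
  have d1 : (A.card : ℝ) ≤ ∑ p ∈ A, Real.exp (-(u : ℝ)) *
      ∑ d ∈ T, if (d : ℤ) ∣ lf F p then hf α d else 0 := by
    rw [Finset.card_eq_sum_ones]
    push_cast
    exact Finset.sum_le_sum hpt
  have d2 : ∑ p ∈ A, Real.exp (-(u : ℝ)) *
      ∑ d ∈ T, (if (d : ℤ) ∣ lf F p then hf α d else 0) =
      Real.exp (-(u : ℝ)) * ∑ d ∈ T, hf α d *
        ((A.filter (fun p : ℕ => (d : ℤ) ∣ lf F p)).card : ℝ) := by
    rw [← Finset.mul_sum, Finset.sum_comm]
    congr 1
    refine Finset.sum_congr rfl fun d _ => ?_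
    rw [← Finset.sum_filter, Finset.sum_const, nsmul_eq_mul, mul_comm]
  have d3 : ∀ d ∈ T, hf α d * ((A.filter (fun p : ℕ => (d : ℤ) ∣ lf F p)).card : ℝ) ≤
      CU * V * N * Fq α d := by
    intro d hd
    rw [hT, Finset.mem_filter, Finset.mem_Icc] at hd
    obtain ⟨⟨hd1, hdZ⟩, hds, hdb⟩ := hd
    have hdZ' : (d : ℝ) ≤ Z := by
      have h0 : (d : ℝ) ≤ (⌊Z⌋₊ : ℝ) := by exact_mod_cast hdZ
      exact h0.trans (Nat.floor_le (by positivity))
    have hUd := hU N h1 S hS F hF d hd1 hdZ' hdb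
    have hc : ((A.filter (fun p : ℕ => (d : ℤ) ∣ lf F p)).card : ℝ) ≤
        CU * (N / d) * V := by
      refine le_trans (Nat.cast_le.2 (Finset.card_le_card ?_)) hUd
      intro p hp
      rw [Finset.mem_filter, hA, Finset.mem_filter] at hp
      obtain ⟨⟨hpN, hpa, hxx, _⟩, hpd⟩ := hp
      rw [Finset.mem_filter]
      exact ⟨hpN, hpd, hxx⟩
    have htot : (0 : ℝ) < (Nat.totient d : ℝ) := by
      exact_mod_cast Nat.totient_pos.2 hd1
    have htd : (Nat.totient d : ℝ) ≤ d := by exact_mod_cast Nat.totient_le d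
    have hhf := hf_nonneg hα0 d
    calc hf α d * ((A.filter (fun p : ℕ => (d : ℤ) ∣ lf F p)).card : ℝ)
        ≤ hf α d * (CU * (N / d) * V) :=
          mul_le_mul_of_nonneg_left hc hhf
      _ ≤ hf α d * (CU * (N / (Nat.totient d : ℝ)) * V) := by
          gcongr
      _ = CU * V * N * Fq α d := by
          unfold Fq
          field_simp
  have d4 : ∑ d ∈ T, Fq α d ≤ Real.exp (16 * (1 + |CM|)) := by
    refine smooth_sum hCM hlogy hy1 T fun d hd => ?_
    rw [hT, Finset.mem_filter, Finset.mem_Icc] at hd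
    exact ⟨by omega, hd.2.1⟩
  calc (A.card : ℝ) ≤ Real.exp (-(u : ℝ)) *
        ∑ d ∈ T, hf α d * ((A.filter (fun p : ℕ => (d : ℤ) ∣ lf F p)).card : ℝ) := by
        rw [← d2]
        exact d1
    _ ≤ Real.exp (-(u : ℝ)) * ∑ d ∈ T, CU * V * N * Fq α d := by
        exact mul_le_mul_of_nonneg_left (Finset.sum_le_sum d3) (Real.exp_nonneg _)
    _ = Real.exp (-(u : ℝ)) * (CU * V * N * ∑ d ∈ T, Fq α d) := by
        rw [← Finset.mul_sum]
    _ ≤ Real.exp (-(u : ℝ)) * (CU * V * N * Real.exp (16 * (1 + |CM|))) := by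
        gcongr
    _ = _ := by ring

end Pool.Agent.W503.KI
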